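import Mathlib
import Pool.Agent.H11.STA.TwistMain

/-!
# Counting tuples with exceptional indices
-/

namespace Pool.Agent.H13.TWJ

open Finset MeasureTheory Pool.Agent.H11.STA

open Classical in
/-- The number of indices below `K` with the property `Q`. -/
noncomputable def qn (Q : ℕ → Prop) (K : ℕ) : ℕ := ((range K).filter Q).card

lemma window_qn (K s : ℕ) (Q : ℕ → Prop) [DecidablePred fun k => ∃ i : Fin s, Q (k + i)] :
    ((range K).filter (fun k => ∃ i : Fin s, Q (k + i))).card ≤ s * qn Q (K + s) := by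
  classical
  have h := window_count K s 0 Q
  rw [zero_add] at h
  refine le_trans ?_ (h.trans (le_of_eq ?_))
  · apply Finset.card_le_card
    intro k hk
    rw [Finset.mem_filter] at hk ⊢
    obtain ⟨hk1, i, hi⟩ := hk
    exact ⟨hk1, i, Or.inr hi⟩
  · unfold qn
    congr

/-- The count of tuples and the product of the local indicators. -/
lemma near_gen (E : WeierstrassCurve ℚ) (Y : LocFun) (s K : ℕ) (d c : ℤ) (α β : Fin s → ℝ)
    (Q : ℕ → Prop) (h : ∀ k, k < K + s → ¬ Q k → angle E k = Y k d c) :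
    |(boxCount E α β K : ℝ) - ∑ k ∈ range K, ∏ i : Fin s, gind Y (k + i) (α i) (β i) d c| ≤
      s * qn Q (K + s) := by
  classical
  have hprod : ∀ k, ∏ i : Fin s, gind Y (k + i) (α i) (β i) d c =
      if (∀ i : Fin s, Y (k + i) d c ∈ Set.Ico (α i) (β i)) then (1 : ℝ) else 0 := by
    intro k
    unfold gind
    split_ifs with h
    · exact Finset.prod_eq_one (fun i _ => if_pos (h i))
    · push Not at h
      obtain ⟨i, hi⟩ := h
      exact Finset.prod_eq_zero (Finset.mem_univ i) (if_neg hi)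
  have hbc : (boxCount E α β K : ℝ) = ∑ k ∈ range K,
      (if (fun i : Fin s => angle E (k + i)) ∈ Pool.Agent.H11.STA.box α β then (1 : ℝ) else 0) := by
    unfold boxCount
    rw [Finset.card_filter]
    push_cast
    refine Finset.sum_congr rfl (fun k _ => ?_)
    congr
  rw [hbc, ← Finset.sum_sub_distrib]
  have hterm : ∀ k ∈ range K, |(if (fun i : Fin s => angle E (k + i)) ∈ Pool.Agent.H11.STA.box α β
      then (1 : ℝ) else 0) - ∏ i : Fin s, gind Y (k + i) (α i) (β i) d c| ≤
      if (∃ i : Fin s, Q (k + i)) then 1 else 0 := by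
    intro k hk
    rw [hprod]
    by_cases hex : ∃ i : Fin s, Q (k + i)
    · rw [if_pos hex]
      split_ifs <;> norm_num
    · rw [if_neg hex]
      push Not at hex
      have h2 : ((fun i : Fin s => angle E (k + i)) ∈ Pool.Agent.H11.STA.box α β) ↔
          (∀ i : Fin s, Y (k + i) d c ∈ Set.Ico (α i) (β i)) := by
        unfold Pool.Agent.H11.STA.box
        rw [Set.mem_univ_pi]
        refine forall_congr' (fun i => ?_)
        have hi := i.2
        rw [h (k + i) (by have := Finset.mem_range.mp hk; omega) (hex i)]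
      simp only [h2, sub_self, abs_zero, le_refl]
  refine (Finset.abs_sum_le_sum_abs _ _).trans ((Finset.sum_le_sum hterm).trans ?_)
  rw [← Finset.sum_filter, Finset.sum_const, nsmul_eq_mul, mul_one]
  exact_mod_cast window_qn K s Q

/-- Sums over windows. -/
lemma sum_window (s K : ℕ) (e : ℕ → ℝ) (he : ∀ k, 0 ≤ e k) :
    ∑ k ∈ range K, ∑ i : Fin s, e (k + i) ≤ s * ∑ k ∈ range (K + s), e k := by
  rw [Finset.sum_comm]
  have h1 : ∀ i ∈ (Finset.univ : Finset (Fin s)),
      ∑ k ∈ range K, e (k + i) ≤ ∑ k ∈ range (K + s), e k := by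
    intro i _
    have h2 : ∑ k ∈ range K, e (k + i) = ∑ k ∈ (range K).image (fun k => k + (i : ℕ)), e k := by
      rw [Finset.sum_image]
      intro k _ l _ hkl
      exact Nat.add_right_cancel hkl
    rw [h2]
    apply Finset.sum_le_sum_of_subset_of_nonneg
    · intro k hk
      rw [Finset.mem_image] at hk
      obtain ⟨l, hl, rfl⟩ := hk
      rw [Finset.mem_range] at hl ⊢
      have := i.2
      omega
    · intro k _ _
      exact he k
  refine (Finset.sum_le_sum h1).trans ?_
  rw [Finset.sum_const, Finset.card_univ, Fintype.card_fin, nsmul_eq_mul]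

/-- Products of nearby numbers in windows. -/
lemma prod_window (s K : ℕ) (x y : ℕ → Fin s → ℝ) (hx : ∀ k i, 0 ≤ x k i ∧ x k i ≤ 1)
    (hy : ∀ k i, 0 ≤ y k i ∧ y k i ≤ 1) (e : ℕ → ℝ) (he : ∀ k, 0 ≤ e k)
    (h : ∀ k i, |x k i - y k i| ≤ e k) :
    |∑ k ∈ range K, ∏ i : Fin s, x (k + i) i - ∑ k ∈ range K, ∏ i : Fin s, y (k + i) i| ≤
      s * ∑ k ∈ range (K + s), e k := by
  classical
  rw [← Finset.sum_sub_distrib]
  refine (Finset.abs_sum_le_sum_abs _ _).trans (le_trans ?_ (sum_window s K e he))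
  refine Finset.sum_le_sum (fun k _ => ?_)
  refine (abs_prod_sub_prod Finset.univ _ _ (fun i _ => hx _ _) (fun i _ => hy _ _)).trans ?_
  exact Finset.sum_le_sum (fun i _ => h _ _)

/-- The deviation is the difference of the two sums. -/
lemma gdev_eq (Y : LocFun) (s : ℕ) (α β : Fin s → ℝ) (K : ℕ) (d c : ℤ) :
    gdev Y s α β K d c = ∑ k ∈ range K, ∏ i : Fin s, gind Y (k + i) (α i) (β i) d c -
      ∑ k ∈ range K, ∏ i : Fin s, glaw Y (k + i) (Set.Ico (α i) (β i)) := by
  rw [gdev_int, Finset.sum_sub_distrib]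

/-- The count of tuples and the sum of products of given local laws. -/
lemma near_law (E : WeierstrassCurve ℚ) (Y : LocFun) (s K : ℕ) (d c : ℤ) (α β : Fin s → ℝ)
    (Q : ℕ → Prop) (h : ∀ k, k < K + s → ¬ Q k → angle E k = Y k d c)
    (L : ℕ → Fin s → ℝ) (hL : ∀ k i, 0 ≤ L k i ∧ L k i ≤ 1) (e : ℕ → ℝ) (he : ∀ k, 0 ≤ e k)
    (hLe : ∀ k i, |glaw Y k (Set.Ico (α i) (β i)) - L k i| ≤ e k) :
    |(boxCount E α β K : ℝ) - ∑ k ∈ range K, ∏ i : Fin s, L (k + i) i| ≤
      s * qn Q (K + s) + |gdev Y s α β K d c| + s * ∑ k ∈ range (K + s), e k := by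
  have h1 := near_gen E Y s K d c α β Q h
  have h2 := gdev_eq Y s α β K d c
  have h3 := prod_window s K (fun k i => glaw Y k (Set.Ico (α i) (β i))) L
    (fun k i => ⟨glaw_nonneg _ _ _, glaw_le_one _ _ _⟩) hL e he hLe
  have t1 := abs_le.mp h1
  have t2 := abs_le.mp (le_refl |gdev Y s α β K d c|)
  have t3 := abs_le.mp h3
  rw [abs_le]
  constructor <;> linarith [t1.1, t1.2, t2.1, t2.2, t3.1, t3.2]

end Pool.Agent.H13.TWJ
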