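import Mathlib
import Pool.Agent.H13.TWJ.Near

/-!
# The twists of the curves with integral `j`-invariant: the local laws
-/

namespace Pool.Agent.H13.TWJ

open Finset MeasureTheory Pool.Agent.H11.STA

variable {p : ℕ} [Fact p.Prime]

/-- The pair `(3j(1728-j)d², 2j(1728-j)²d³)`. -/
def jmap (w : ZMod p × ZMod p) : ZMod p × ZMod p :=
  (w.2 ^ 2 * (3 * w.1 * (1728 - w.1)), w.2 ^ 3 * (2 * w.1 * (1728 - w.1) ^ 2))

lemma cast_ne (hp : 5 ≤ p) : (2 : ZMod p) ≠ 0 ∧ (3 : ZMod p) ≠ 0 ∧ (1728 : ZMod p) ≠ 0 := by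
  have h2 : (2 : ZMod p) ≠ 0 := by
    intro h2
    have h' : ((2 : ℕ) : ZMod p) = 0 := by exact_mod_cast h2
    rw [ZMod.natCast_eq_zero_iff] at h'
    have := Nat.le_of_dvd (by norm_num) h'
    omega
  have h3 : (3 : ZMod p) ≠ 0 := by
    intro h2
    have h' : ((3 : ℕ) : ZMod p) = 0 := by exact_mod_cast h2
    rw [ZMod.natCast_eq_zero_iff] at h'
    have := Nat.le_of_dvd (by norm_num) h'
    omega
  refine ⟨h2, h3, ?_⟩
  have : (1728 : ZMod p) = 2 ^ 6 * 3 ^ 3 := by norm_num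
  rw [this]
  exact mul_ne_zero (pow_ne_zero 6 h2) (pow_ne_zero 3 h3)

/-- The good pairs `(j, d)`. -/
def good (w : ZMod p × ZMod p) : Prop := w.1 ≠ 0 ∧ w.1 ≠ 1728 ∧ w.2 ≠ 0

instance : DecidablePred (good (p := p)) := fun w => by unfold good; infer_instance

lemma jmap_inj (hp : 5 ≤ p) (w w' : ZMod p × ZMod p) (hw : good w) (hw' : good w')
    (h : jmap w = jmap w') : w = w' := by
  obtain ⟨h2, h3, h1728⟩ := cast_ne hp
  obtain ⟨u, v⟩ := w
  obtain ⟨u', v'⟩ := w'
  obtain ⟨hu, hu1, hv⟩ := hw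
  obtain ⟨hu', hu1', hv'⟩ := hw'
  simp only at hu hu1 hv hu' hu1' hv'
  unfold jmap at h
  rw [Prod.mk.injEq] at h
  obtain ⟨ha, hb⟩ := h
  simp only at ha hb
  have hd : (1728 - u : ZMod p) ≠ 0 := sub_ne_zero.mpr (Ne.symm hu1)
  have hd' : (1728 - u' : ZMod p) ≠ 0 := sub_ne_zero.mpr (Ne.symm hu1')
  set a := v ^ 2 * (3 * u * (1728 - u)) with ha0
  set b := v ^ 3 * (2 * u * (1728 - u) ^ 2) with hb0
  have ha1 : a ≠ 0 := mul_ne_zero (pow_ne_zero 2 hv) (mul_ne_zero (mul_ne_zero h3 hu) hd)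
  have hb1 : b ≠ 0 := mul_ne_zero (pow_ne_zero 3 hv) (mul_ne_zero (mul_ne_zero h2 hu)
    (pow_ne_zero 2 hd))
  have e1 : u * (4 * a ^ 3 + 27 * b ^ 2) = 4 * 1728 * a ^ 3 := by
    rw [ha0, hb0]; ring
  have e2 : u' * (4 * a ^ 3 + 27 * b ^ 2) = 4 * 1728 * a ^ 3 := by
    rw [ha, hb]; ring
  have h4 : (4 : ZMod p) ≠ 0 := by
    have : (4 : ZMod p) = 2 ^ 2 := by norm_num
    rw [this]; exact pow_ne_zero 2 h2
  have hne : (4 * a ^ 3 + 27 * b ^ 2 : ZMod p) ≠ 0 := by
    intro h0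
    rw [h0, mul_zero] at e1
    exact mul_ne_zero (mul_ne_zero h4 h1728) (pow_ne_zero 3 ha1) e1.symm
  have huu : u = u' := mul_right_cancel₀ hne (e1.trans e2.symm)
  subst huu
  have e3 : 3 * b = 2 * a * (1728 - u) * v := by rw [ha0, hb0]; ring
  have e4 : 3 * b = 2 * a * (1728 - u) * v' := by rw [ha, hb]; ring
  have hne2 : (2 * a * (1728 - u) : ZMod p) ≠ 0 := mul_ne_zero (mul_ne_zero h2 ha1) hd
  have hvv : v = v' := mul_left_cancel₀ hne2 (e3.symm.trans e4)
  rw [hvv]

/-- Few pairs are not good. -/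
lemma card_not_good : ((Finset.univ.filter (fun w : ZMod p × ZMod p => ¬ good w)).card : ℝ) ≤
    3 * p := by
  classical
  have hsub : Finset.univ.filter (fun w : ZMod p × ZMod p => ¬ good w) ⊆
      (({0} : Finset (ZMod p)) ×ˢ Finset.univ) ∪ ((({1728} : Finset (ZMod p)) ×ˢ Finset.univ) ∪
      (Finset.univ ×ˢ ({0} : Finset (ZMod p)))) := by
    intro w hw
    rw [Finset.mem_filter] at hw
    simp only [Finset.mem_union, Finset.mem_product, Finset.mem_singleton, Finset.mem_univ,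
      and_true, true_and]
    unfold good at hw
    tauto
  have h1 := Finset.card_le_card hsub
  have h2 : (((({0} : Finset (ZMod p)) ×ˢ (Finset.univ : Finset (ZMod p))) ∪
      ((({1728} : Finset (ZMod p)) ×ˢ (Finset.univ : Finset (ZMod p))) ∪
      ((Finset.univ : Finset (ZMod p)) ×ˢ ({0} : Finset (ZMod p)))))).card ≤ p + (p + p) := by
    refine (Finset.card_union_le _ _).trans ?_
    refine Nat.add_le_add ?_ ((Finset.card_union_le _ _).trans (Nat.add_le_add ?_ ?_)) <;>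
    simp [Finset.card_product, ZMod.card]
  have h3 := h1.trans h2
  have h4 : (((Finset.univ.filter (fun w : ZMod p × ZMod p => ¬ good w)).card : ℕ) : ℝ) ≤
      ((p + (p + p) : ℕ) : ℝ) := by exact_mod_cast h3
  push_cast at h4
  linarith

/-- A function of `jmap` has nearly the same sum as the function itself. -/
lemma sum_jmap (hp : 5 ≤ p) (F : ZMod p × ZMod p → ℝ) (hF : ∀ w, 0 ≤ F w ∧ F w ≤ 1)
    (G : ZMod p × ZMod p → ℝ) (hG : ∀ w, 0 ≤ G w ∧ G w ≤ 1)
    (h : ∀ w, good w → G w = F (jmap w)) : |∑ w, G w - ∑ w, F w| ≤ 3 * p := by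
  classical
  have hcard := card_not_good (p := p)
  set U := Finset.univ.filter (fun w : ZMod p × ZMod p => good w) with hU
  set U' := Finset.univ.filter (fun w : ZMod p × ZMod p => ¬ good w) with hU'
  have h1 : ∑ w, G w = ∑ w ∈ U, G w + ∑ w ∈ U', G w :=
    (Finset.sum_filter_add_sum_filter_not _ _ _).symm
  have h2 : ∑ w ∈ U, G w = ∑ w ∈ U.image jmap, F w := by
    rw [Finset.sum_image]
    · exact Finset.sum_congr rfl (fun w hw => h w (Finset.mem_filter.mp hw).2)
    · intro w hw w' hw' hww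
      exact jmap_inj hp w w' (Finset.mem_filter.mp hw).2 (Finset.mem_filter.mp hw').2 hww
  have h3 : ∑ w, F w = ∑ w ∈ U.image jmap, F w + ∑ w ∈ Finset.univ \ U.image jmap, F w := by
    rw [add_comm]
    exact (Finset.sum_sdiff (Finset.subset_univ _)).symm
  have h4 : (Finset.univ \ U.image jmap).card = U'.card := by
    have e1 : (U.image jmap).card = U.card := by
      apply Finset.card_image_of_injOn
      intro w hw w' hw' hww
      exact jmap_inj hp w w' (Finset.mem_filter.mp hw).2 (Finset.mem_filter.mp hw').2 hww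
    have e2 := Finset.card_sdiff_add_card_eq_card (Finset.subset_univ (U.image jmap))
    have e3 : U.card + U'.card = (Finset.univ : Finset (ZMod p × ZMod p)).card :=
      Finset.card_filter_add_card_filter_not _
    omega
  have h5 : ∑ w ∈ U', G w ≤ 3 * p := by
    refine (Finset.sum_le_sum (fun w _ => (hG w).2)).trans ?_
    rw [Finset.sum_const, nsmul_eq_mul, mul_one]; exact hcard
  have h6 : ∑ w ∈ Finset.univ \ U.image jmap, F w ≤ 3 * p := by
    refine (Finset.sum_le_sum (fun w _ => (hF w).2)).trans ?_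
    rw [Finset.sum_const, nsmul_eq_mul, mul_one, h4]; exact hcard
  have h7 : 0 ≤ ∑ w ∈ U', G w := Finset.sum_nonneg (fun w _ => (hG w).1)
  have h8 : 0 ≤ ∑ w ∈ Finset.univ \ U.image jmap, F w := Finset.sum_nonneg (fun w _ => (hF w).1)
  rw [abs_le]
  constructor <;> linarith

open Classical in
/-- The angle of the twist by `d` of the curve with invariant `j`. -/
noncomputable def tjFun : LocFun := fun k u v =>
  if v = 0 then 1 / 2 else redAngle (Nat.nth Nat.Prime k)
    (v ^ 2 * (3 * u * (1728 - u))) (v ^ 3 * (2 * u * (1728 - u) ^ 2))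

lemma tjFun_le_one : ∀ k u v, tjFun k u v ≤ 1 := by
  intro k u v
  unfold tjFun
  split_ifs
  · norm_num
  · exact redAngle_le_one _ _ _

/-- The law of the angle over the twists of all curves, and over all short equations. -/
lemma tj_law (k : ℕ) (hk : 2 ≤ k) (I : Set ℝ) :
    |glaw tjFun k I - angleLaw k I| ≤ 3 / (Nat.nth Nat.Prime k : ℝ) := by
  classical
  have hp5 := five_le k hk
  have hp0 : (0 : ℝ) < (Nat.nth Nat.Prime k : ℝ) := by exact_mod_cast (by omega)
  have h := sum_jmap hp5 (fun w => if redAngle (Nat.nth Nat.Prime k) w.1 w.2 ∈ I then (1 : ℝ)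
    else 0) (fun w => by split_ifs <;> norm_num)
    (fun w => if tjFun k w.1 w.2 ∈ I then (1 : ℝ) else 0) (fun w => by split_ifs <;> norm_num)
    (fun w hw => by
      unfold tjFun jmap
      rw [if_neg hw.2.2])
  have e1 : glaw tjFun k I = (∑ w : ZMod (Nat.nth Nat.Prime k) × ZMod (Nat.nth Nat.Prime k),
      if tjFun k w.1 w.2 ∈ I then (1 : ℝ) else 0) / (Nat.nth Nat.Prime k : ℝ) ^ 2 := by
    unfold glaw
    rw [Finset.card_filter]
    push_cast
    congr 1
  have e2 : angleLaw k I = (∑ w : ZMod (Nat.nth Nat.Prime k) × ZMod (Nat.nth Nat.Prime k),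
      if redAngle (Nat.nth Nat.Prime k) w.1 w.2 ∈ I then (1 : ℝ) else 0) /
      (Nat.nth Nat.Prime k : ℝ) ^ 2 := by
    unfold angleLaw
    rw [Finset.card_filter]
    push_cast
    congr 1
  rw [e1, e2, ← sub_div, abs_div, abs_of_pos (by positivity : (0 : ℝ) <
    (Nat.nth Nat.Prime k : ℝ) ^ 2), div_le_div_iff₀ (by positivity) hp0]
  calc _ ≤ (3 * (Nat.nth Nat.Prime k : ℝ)) * (Nat.nth Nat.Prime k : ℝ) :=
        mul_le_mul_of_nonneg_right h hp0.le
    _ = 3 * (Nat.nth Nat.Prime k : ℝ) ^ 2 := by ring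

end Pool.Agent.H13.TWJ
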