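import Mathlib
import Pool.Agent.H13.TWJ.Law

/-!
# The twists of the curves with integral `j`-invariant: deterministic bounds
-/

namespace Pool.Agent.H13.TWJ

open Finset MeasureTheory Pool.Agent.H11.STA

/-- The twist by `d` of the curve `y² = x³ + 3j(1728-j)x + 2j(1728-j)²`. -/
noncomputable def Ejd (j d : ℤ) : WeierstrassCurve ℚ :=
  shortCurve ((d ^ 2 * (3 * j * (1728 - j)) : ℤ) : ℚ) ((d ^ 3 * (2 * j * (1728 - j) ^ 2) : ℤ) : ℚ)

/-- The exceptional indices of `j`. -/
def Qj (j : ℤ) (k : ℕ) : Prop := k < 2 ∨ ((j : ℤ) : ZMod (Nat.nth Nat.Prime k)) = 0 ∨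
  ((j : ℤ) : ZMod (Nat.nth Nat.Prime k)) = 1728

/-- The indices of the prime divisors of `d`. -/
def Qd (d : ℤ) (k : ℕ) : Prop := ((d : ℤ) : ZMod (Nat.nth Nat.Prime k)) = 0

lemma jA_ne {j : ℤ} {k : ℕ} (h : ¬ Qj j k) :
    ((3 * j * (1728 - j) : ℤ) : ZMod (Nat.nth Nat.Prime k)) ≠ 0 := by
  unfold Qj at h
  push Not at h
  obtain ⟨h1, h2, h3⟩ := h
  obtain ⟨-, e3, -⟩ := cast_ne (five_le k h1)
  push_cast
  exact mul_ne_zero (mul_ne_zero e3 h2) (sub_ne_zero.mpr (Ne.symm h3))

lemma angle_Ejd {j d : ℤ} {k : ℕ} (h : ¬ Qj j k) (hd : ¬ Qd d k) :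
    angle (Ejd j d) k = redAngle (Nat.nth Nat.Prime k)
      (((d : ℤ) : ZMod (Nat.nth Nat.Prime k)) ^ 2 * ((3 * j * (1728 - j) : ℤ) : ZMod _))
      (((d : ℤ) : ZMod (Nat.nth Nat.Prime k)) ^ 3 * ((2 * j * (1728 - j) ^ 2 : ℤ) : ZMod _)) := by
  have hk : 2 ≤ k := by
    unfold Qj at h
    push Not at h
    exact h.1
  have hA := jA_ne h
  have hno : ¬ (((d ^ 2 * (3 * j * (1728 - j)) : ℤ) : ZMod (Nat.nth Nat.Prime k)) = 0 ∧
      ((d ^ 3 * (2 * j * (1728 - j) ^ 2) : ℤ) : ZMod (Nat.nth Nat.Prime k)) = 0) := by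
    rintro ⟨h1, -⟩
    rw [Int.cast_mul, Int.cast_pow] at h1
    rcases mul_eq_zero.mp h1 with h2 | h2
    · exact hd (pow_eq_zero_iff (two_ne_zero) |>.mp h2)
    · exact hA h2
  have h1 := angle_eq (d ^ 2 * (3 * j * (1728 - j))) (d ^ 3 * (2 * j * (1728 - j) ^ 2)) k hk hno
  unfold Ejd
  rw [h1]
  congr 1 <;> push_cast <;> rfl

lemma angle_tj {j d : ℤ} {k : ℕ} (h : ¬ Qj j k) (hd : ¬ Qd d k) :
    angle (Ejd j d) k = tjFun k j d := by
  rw [angle_Ejd h hd]
  unfold tjFun
  unfold Qd at hd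
  rw [if_neg hd]
  push_cast
  rfl

lemma angle_twj {j d : ℤ} {k : ℕ} (h : ¬ Qj j k) (hd : ¬ Qd d k) (c : ℤ) :
    angle (Ejd j d) k = twFun (3 * j * (1728 - j)) (2 * j * (1728 - j) ^ 2) k d c := by
  rw [angle_Ejd h hd]
  unfold twFun
  unfold Qd at hd
  rw [if_neg hd]

lemma foldInd_symm (x α β : ℝ) : foldInd (1 - x) α β = foldInd x α β := by
  unfold foldInd
  rw [sub_sub_cancel, add_comm]

/-- All twists have the same folded indicators. -/
lemma foldInd_Ejd {j d : ℤ} {k : ℕ} (h : ¬ Qj j k) (hd : ¬ Qd d k) (α β : ℝ) :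
    foldInd (angle (Ejd j d) k) α β = foldInd (redAngle (Nat.nth Nat.Prime k)
      ((3 * j * (1728 - j) : ℤ) : ZMod (Nat.nth Nat.Prime k))
      ((2 * j * (1728 - j) ^ 2 : ℤ) : ZMod (Nat.nth Nat.Prime k))) α β := by
  have hk : 2 ≤ k := by
    unfold Qj at h
    push Not at h
    exact h.1
  have hp5 := five_le k hk
  rw [angle_Ejd h hd]
  rcases quadraticChar_dichotomy (F := ZMod (Nat.nth Nat.Prime k)) hd with h1 | h1
  · rw [sq_twist (by omega) _ _ _ hd h1]
  · rw [redAngle_twist (by omega) _ _ _ hd h1, foldInd_symm]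

lemma qn_mono {Q Q' : ℕ → Prop} (h : ∀ k, Q k → Q' k) (K : ℕ) : qn Q K ≤ qn Q' K := by
  classical
  unfold qn
  apply Finset.card_le_card
  intro k hk
  rw [Finset.mem_filter] at hk ⊢
  exact ⟨hk.1, h k hk.2⟩

lemma qn_or' (Q Q' Q'' : ℕ → Prop) (h : ∀ k, Q'' k → Q k ∨ Q' k) (K : ℕ) :
    qn Q'' K ≤ qn Q K + qn Q' K := by
  classical
  unfold qn
  refine le_trans (Finset.card_le_card ?_) (Finset.card_union_le _ _)
  intro k hk
  rw [Finset.mem_filter] at hk
  rw [Finset.mem_union, Finset.mem_filter, Finset.mem_filter]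
  rcases h k hk.2 with h1 | h1
  · exact Or.inl ⟨hk.1, h1⟩
  · exact Or.inr ⟨hk.1, h1⟩

lemma qn_or (Q Q' : ℕ → Prop) (K : ℕ) : qn (fun k => Q k ∨ Q' k) K ≤ qn Q K + qn Q' K :=
  qn_or' Q Q' _ (fun _ h => h) K

lemma qn_add (Q : ℕ → Prop) (K s : ℕ) : qn Q (K + s) ≤ qn Q K + s := by
  classical
  unfold qn
  rw [Finset.range_eq_Ico, ← Finset.Ico_union_Ico_eq_Ico (Nat.zero_le K) (Nat.le_add_right K s),
    Finset.filter_union]
  refine (Finset.card_union_le _ _).trans ?_
  have : ((Ico K (K + s)).filter Q).card ≤ s := by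
    refine (Finset.card_filter_le _ _).trans ?_
    simp
  have h2 : Ico 0 K = range K := (Finset.range_eq_Ico K).symm
  rw [h2]
  omega

open Classical in
lemma sum_ind (Q : ℕ → Prop) (K : ℕ) : ∑ k ∈ range K, (if Q k then (1 : ℝ) else 0) = qn Q K := by
  unfold qn
  rw [← Finset.sum_filter, Finset.sum_const, nsmul_eq_mul, mul_one]

lemma foldCount_eq (E : WeierstrassCurve ℚ) {s : ℕ} (α β : Fin s → ℝ) (K : ℕ) :
    foldCount E α β K = (∑ k ∈ range K, ∏ i : Fin s, foldInd (angle E (k + i)) (α i) (β i)) / K :=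
  rfl

/-- The folded counts of two twists. -/
lemma fold_near (j d d' : ℤ) (s K : ℕ) (hK : 1 ≤ K) (α β : Fin s → ℝ) :
    |foldCount (Ejd j d) α β K - foldCount (Ejd j d') α β K| ≤
      s * (qn (fun k => (Qj j k ∨ Qd d' k) ∨ Qd d k) (K + s)) / K := by
  classical
  have hKR : (0 : ℝ) < K := by exact_mod_cast hK
  rw [foldCount_eq, foldCount_eq, ← sub_div, abs_div, abs_of_pos hKR]
  refine div_le_div_of_nonneg_right ?_ hKR.le
  rw [← sum_ind]
  refine prod_window s K (fun k i => foldInd (angle (Ejd j d) k) (α i) (β i))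
    (fun k i => foldInd (angle (Ejd j d') k) (α i) (β i)) (fun _ _ => foldInd_unit _ _ _)
    (fun _ _ => foldInd_unit _ _ _) _ (fun k => by split_ifs <;> norm_num) ?_
  intro k i
  split_ifs with hQ
  · have h1 := foldInd_unit (angle (Ejd j d) k) (α i) (β i)
    have h2 := foldInd_unit (angle (Ejd j d') k) (α i) (β i)
    rw [abs_le]
    constructor <;> linarith [h1.1, h1.2, h2.1, h2.2]
  · push Not at hQ
    rw [foldInd_Ejd hQ.1.1 hQ.2, foldInd_Ejd hQ.1.1 hQ.1.2, sub_self, abs_zero]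

lemma foldCount_unit (E : WeierstrassCurve ℚ) {s : ℕ} (α β : Fin s → ℝ) (K : ℕ) :
    0 ≤ foldCount E α β K ∧ foldCount E α β K ≤ 1 := by
  rw [foldCount_eq]
  constructor
  · exact div_nonneg (Finset.sum_nonneg (fun k _ => Finset.prod_nonneg
      (fun i _ => (foldInd_unit _ _ _).1))) (Nat.cast_nonneg _)
  · apply div_le_one_of_le₀ _ (Nat.cast_nonneg _)
    refine (Finset.sum_le_sum (fun k _ => Finset.prod_le_one
      (fun i _ => (foldInd_unit _ _ _).1) (fun i _ => (foldInd_unit _ _ _).2))).trans ?_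
    simp

lemma foldDisc_near (E E' : WeierstrassCurve ℚ) (s K : ℕ) (e : ℝ)
    (h : ∀ α β : Fin s → ℝ, |foldCount E α β K - foldCount E' α β K| ≤ e) :
    foldDisc E s K ≤ foldDisc E' s K + e := by
  have hbdd : BddAbove {r | ∃ a b : Fin s → ℝ, (∀ i, 0 ≤ a i ∧ a i ≤ b i ∧ b i ≤ 1) ∧
      r = |foldCount E' a b K - (Measure.pi (fun _ : Fin s => satoTate)).real
        (Pool.Agent.H11.STA.box a b)|} := by
    refine ⟨1, ?_⟩
    rintro r ⟨α, β, hab, rfl⟩
    have h2 := foldCount_unit E' α β K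
    have h3 : 0 ≤ (Measure.pi (fun _ : Fin s => satoTate)).real
      (Pool.Agent.H11.STA.box α β) := measureReal_nonneg
    have h4 : (Measure.pi (fun _ : Fin s => satoTate)).real
      (Pool.Agent.H11.STA.box α β) ≤ 1 := measureReal_le_one
    rw [abs_le]
    constructor <;> linarith [h2.1, h2.2]
  unfold foldDisc
  refine csSup_le ?_ ?_
  · exact ⟨_, fun _ => 0, fun _ => 1, fun _ => ⟨le_rfl, zero_le_one, le_rfl⟩, rfl⟩
  rintro r ⟨α, β, hab, rfl⟩
  have h2 := h α β
  have h3 : |foldCount E' α β K - (Measure.pi (fun _ : Fin s => satoTate)).real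
      (Pool.Agent.H11.STA.box α β)| ≤ foldDisc E' s K := le_csSup hbdd ⟨α, β, hab, rfl⟩
  have h4 := abs_sub_le (foldCount E α β K) (foldCount E' α β K)
    ((Measure.pi (fun _ : Fin s => satoTate)).real (Pool.Agent.H11.STA.box α β))
  change _ ≤ foldDisc E' s K + e
  linarith

/-- The sum of `1/p` and of the exceptional indices. -/
lemma sum_err (Q : ℕ → Prop) (c : ℝ) (hc : 0 ≤ c) (K : ℕ) [DecidablePred Q] :
    ∑ k ∈ range K, (if Q k then (1 : ℝ) else c / (Nat.nth Nat.Prime k : ℝ)) ≤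
      qn Q K + 2 * c * √(K : ℝ) := by
  classical
  have h1 : ∑ k ∈ range K, (if Q k then (1 : ℝ) else c / (Nat.nth Nat.Prime k : ℝ)) ≤
      ∑ k ∈ range K, (if Q k then (1 : ℝ) else 0) +
        c * ∑ k ∈ range K, 1 / (Nat.nth Nat.Prime k : ℝ) := by
    rw [Finset.mul_sum, ← Finset.sum_add_distrib]
    refine Finset.sum_le_sum (fun k _ => ?_)
    have h0 : 0 ≤ c * (1 / (Nat.nth Nat.Prime k : ℝ)) := by positivity
    split_ifs
    · linarith
    · rw [mul_one_div, zero_add]
  have h2 := mul_le_mul_of_nonneg_left (sum_inv_prime K) hc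
  have h3 : ∑ k ∈ range K, (if Q k then (1 : ℝ) else 0) = qn Q K := by
    rw [← sum_ind]
    refine Finset.sum_congr rfl (fun k _ => ?_)
    congr
  rw [h3] at h1
  linarith

/-- The discrepancy of the twist by `d` from the average local law. -/
lemma pair_disc (j d : ℤ) (s K : ℕ) (hK : 1 ≤ K) (l : ℝ)
    (hdev : ∀ α β : Fin s → ℝ, |gdev tjFun s α β K j d| ≤ l) :
    extremeDisc (Ejd j d) s K ≤ (2 * s * qn (fun k => Qj j k ∨ Qd d k) (K + s) + l +
      s * (6 * √((K + s : ℕ) : ℝ))) / K + meanDisc s K := by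
  classical
  have hKR : (0 : ℝ) < K := by exact_mod_cast hK
  have hs0 : (0 : ℝ) ≤ s := Nat.cast_nonneg _
  unfold extremeDisc
  refine csSup_le ?_ ?_
  · exact ⟨_, fun _ => 0, fun _ => 1, fun _ => ⟨le_rfl, zero_le_one, le_rfl⟩, rfl⟩
  rintro r ⟨α, β, hab, rfl⟩
  set Q : ℕ → Prop := fun k => Qj j k ∨ Qd d k with hQ
  have h1 := near_law (Ejd j d) tjFun s K j d α β Q (fun k _ hk => by
      rw [hQ] at hk
      push Not at hk
      exact angle_tj hk.1 hk.2)
    (fun k i => angleLaw k (Set.Ico (α i) (β i)))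
    (fun k i => ⟨angleLaw_nonneg _ _, angleLaw_le_one _ _⟩)
    (fun k => if Q k then (1 : ℝ) else 3 / (Nat.nth Nat.Prime k : ℝ))
    (fun k => by split_ifs <;> positivity)
    (fun k i => by
      by_cases hk : Q k
      · simp only [if_pos hk]
        have a1 := glaw_nonneg tjFun k (Set.Ico (α i) (β i))
        have a2 := glaw_le_one tjFun k (Set.Ico (α i) (β i))
        have a3 := angleLaw_nonneg k (Set.Ico (α i) (β i))
        have a4 := angleLaw_le_one k (Set.Ico (α i) (β i))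
        rw [abs_le]
        constructor <;> linarith
      · simp only [if_neg hk]
        have hk2 : 2 ≤ k := by
          rw [hQ] at hk
          simp only [Qj] at hk
          push Not at hk
          exact hk.1.1
        exact tj_law k hk2 _)
  have h2 := sum_err Q 3 (by norm_num) (K + s)
  have h3 := hdev α β
  have h4 : |(boxCount (Ejd j d) α β K : ℝ) / K - meanCount α β K| ≤
      (2 * s * qn Q (K + s) + l + s * (6 * √((K + s : ℕ) : ℝ))) / K := by
    unfold meanCount
    rw [← sub_div, abs_div, abs_of_pos hKR]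
    refine div_le_div_of_nonneg_right ?_ hKR.le
    refine h1.trans ?_
    have h5 := mul_le_mul_of_nonneg_left h2 hs0
    nlinarith
  have h5 := le_meanDisc (K := K) α β hab
  unfold localDisc
  have h6 := abs_sub_le ((boxCount (Ejd j d) α β K : ℝ) / K) (meanCount α β K)
    ((Measure.pi (fun _ : Fin s => satoTate)).real (Pool.Agent.H11.STA.box α β))
  linarith

/-- The discrepancy of the twist by `d` and the folded discrepancy of the twist by `d'`. -/
lemma twist_disc (j d d' c : ℤ) (s K : ℕ) (hK : 1 ≤ K) (l : ℝ)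
    (hdev : ∀ α β : Fin s → ℝ, |gdev (twFun (3 * j * (1728 - j)) (2 * j * (1728 - j) ^ 2))
      s α β K d c| ≤ l) :
    extremeDisc (Ejd j d) s K ≤ foldDisc (Ejd j d') s K +
      (s * qn (fun k => Qj j k ∨ Qd d k) (K + s) + l +
      s * (qn (fun k => Qj j k ∨ Qd d' k) (K + s) + 2 * √((K + s : ℕ) : ℝ))) / K := by
  classical
  have hKR : (0 : ℝ) < K := by exact_mod_cast hK
  have hs0 : (0 : ℝ) ≤ s := Nat.cast_nonneg _
  set Q : ℕ → Prop := fun k => Qj j k ∨ Qd d k with hQ
  set Q' : ℕ → Prop := fun k => Qj j k ∨ Qd d' k with hQ'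
  have h := disc_near (Ejd j d') (Ejd j d) s K ((s * qn Q (K + s) + l +
      s * (qn Q' (K + s) + 2 * √((K + s : ℕ) : ℝ))) / K) (fun α β => by
    have h1 := near_law (Ejd j d) (twFun (3 * j * (1728 - j)) (2 * j * (1728 - j) ^ 2)) s K d c
      α β Q (fun k _ hk => by
        rw [hQ] at hk
        push Not at hk
        exact angle_twj hk.1 hk.2 c)
      (fun k i => foldInd (angle (Ejd j d') k) (α i) (β i)) (fun k i => foldInd_unit _ _ _)
      (fun k => if Q' k then (1 : ℝ) else 1 / (Nat.nth Nat.Prime k : ℝ))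
      (fun k => by split_ifs <;> positivity)
      (fun k i => by
        by_cases hk : Q' k
        · simp only [if_pos hk]
          have a1 := glaw_nonneg (twFun (3 * j * (1728 - j)) (2 * j * (1728 - j) ^ 2)) k
            (Set.Ico (α i) (β i))
          have a2 := glaw_le_one (twFun (3 * j * (1728 - j)) (2 * j * (1728 - j) ^ 2)) k
            (Set.Ico (α i) (β i))
          have a3 := foldInd_unit (angle (Ejd j d') k) (α i) (β i)
          rw [abs_le]
          constructor <;> linarith [a3.1, a3.2]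
        · simp only [if_neg hk]
          have hk1 : ¬ Qj j k ∧ ¬ Qd d' k := by
            rw [hQ'] at hk
            push Not at hk
            exact hk
          have hk2 : 2 ≤ k := by
            have h2 := hk1.1
            simp only [Qj] at h2
            push Not at h2
            exact h2.1
          rw [foldInd_Ejd hk1.1 hk1.2]
          exact tw_law (3 * j * (1728 - j)) (2 * j * (1728 - j) ^ 2) k (by omega) (α i) (β i))
    have h2 := sum_err Q' 1 (by norm_num) (K + s)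
    have h3 := hdev α β
    rw [foldCount_eq, ← sub_div, abs_div, abs_of_pos hKR]
    refine div_le_div_of_nonneg_right ?_ hKR.le
    refine h1.trans ?_
    have h5 := mul_le_mul_of_nonneg_left h2 hs0
    linarith)
  have := (abs_le.mp h).2
  linarith

end Pool.Agent.H13.TWJ
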