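import Mathlib
import Pool.Agent.H13.TWJ.Det
import Pool.Agent.DEU.Final

/-!
# The twists of almost all curves with integral `j`-invariant
-/

namespace Pool.Agent.H13.TWJ

open Finset MeasureTheory Pool.Agent.H11.STA

/-- The bounds for the local laws. -/
lemma inputs :
    (∀ ε : ℝ, 0 < ε → ∃ C : ℝ, ∀ K : ℕ, 1 ≤ K → meanDisc 1 K ≤ C * (K : ℝ) ^ (ε - 1 / 2)) ∧
    (∀ ε : ℝ, 0 < ε → ∃ C : ℝ, ∀ K : ℕ, 1 ≤ K →
      ∑ k ∈ range K, localErr k ^ 2 ≤ C * (K : ℝ) ^ (1 / 2 + ε)) := by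
  have h17 : ∀ k, 17 ≤ k → 17 ≤ Nat.nth Nat.Prime k := fun k hk =>
    (hk.trans (lt_nth_prime k).le)
  exact Pool.Agent.H11.DEU.bridge (h := Pool.Agent.DEU.hh) (k0 := 17) h17
    (fun k hk => Pool.Agent.DEU.deuring_count (le_trans (by norm_num) (h17 k hk)))
    Pool.Agent.DEU.c1_holds Pool.Agent.DEU.c2_holds Pool.Agent.DEU.c3_holds

/-- The mean discrepancy. -/
lemma mean_all (s : ℕ) (hs : 1 ≤ s) (ε : ℝ) (hε : 0 < ε) :
    ∃ D : ℝ, 0 ≤ D ∧ ∀ K : ℕ, 1 ≤ K → meanDisc s K ≤ D * (K : ℝ) ^ (ε - 1 / 2) := by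
  obtain ⟨C1, h1⟩ := inputs.1 ε hε
  obtain ⟨C2, h2⟩ := inputs.2 ε hε
  set S : ℝ := (s : ℝ) with hS
  have hS1 : (1 : ℝ) ≤ S := by rw [hS]; exact_mod_cast hs
  set D : ℝ := S * |C1| + S ^ 2 * (|C2| * (S + 1) ^ (1 / 2 + ε)) + 2 * S ^ 2 with hD
  have hDpos : 0 ≤ D := by positivity
  refine ⟨D, hDpos, fun K hK => ?_⟩
  have hKR : (1 : ℝ) ≤ K := by exact_mod_cast hK
  have hKpos : (0 : ℝ) < K := by linarith
  have hpow : (0 : ℝ) < (K : ℝ) ^ (ε - 1 / 2) := Real.rpow_pos_of_pos hKpos _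
  have e2 := meanDisc_le s K hK
  -- first term
  have e3 : S * meanDisc 1 K ≤ S * |C1| * (K : ℝ) ^ (ε - 1 / 2) := by
    have := (h1 K hK).trans (mul_le_mul_of_nonneg_right (le_abs_self C1) hpow.le)
    calc S * meanDisc 1 K ≤ S * (|C1| * (K : ℝ) ^ (ε - 1 / 2)) :=
          mul_le_mul_of_nonneg_left this (by linarith)
      _ = S * |C1| * (K : ℝ) ^ (ε - 1 / 2) := by ring
  -- second term
  have e4 : S ^ 2 / K * ∑ k ∈ range (K + s), localErr k ^ 2 ≤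
      S ^ 2 * (|C2| * (S + 1) ^ (1 / 2 + ε)) * (K : ℝ) ^ (ε - 1 / 2) := by
    have f1 : ∑ k ∈ range (K + s), localErr k ^ 2 ≤ |C2| * ((K + s : ℕ) : ℝ) ^ (1 / 2 + ε) :=
      (h2 (K + s) (by omega)).trans (mul_le_mul_of_nonneg_right (le_abs_self C2)
        (by positivity))
    have f2 : ((K + s : ℕ) : ℝ) ^ (1 / 2 + ε) ≤ ((S + 1) * K) ^ (1 / 2 + ε) := by
      apply Real.rpow_le_rpow (by positivity) _ (by positivity)
      push_cast
      nlinarith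
    have f3 : ((S + 1) * (K : ℝ)) ^ (1 / 2 + ε) = (S + 1) ^ (1 / 2 + ε) * (K : ℝ) ^ (1 / 2 + ε) :=
      Real.mul_rpow (by positivity) hKpos.le
    have f4 : (K : ℝ) ^ (1 / 2 + ε) = K * (K : ℝ) ^ (ε - 1 / 2) := by
      rw [← Real.rpow_one_add' hKpos.le (by linarith)]
      congr 1; ring
    calc S ^ 2 / K * ∑ k ∈ range (K + s), localErr k ^ 2
        ≤ S ^ 2 / K * (|C2| * ((S + 1) ^ (1 / 2 + ε) * (K : ℝ) ^ (1 / 2 + ε))) := by
          apply mul_le_mul_of_nonneg_left _ (by positivity)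
          refine f1.trans (mul_le_mul_of_nonneg_left ?_ (abs_nonneg _))
          rw [← f3]; exact f2
      _ = S ^ 2 * (|C2| * (S + 1) ^ (1 / 2 + ε)) * (K : ℝ) ^ (ε - 1 / 2) := by
          rw [f4]; field_simp
  have e5 : 2 * S ^ 2 / K ≤ 2 * S ^ 2 * (K : ℝ) ^ (ε - 1 / 2) := by
    have h4 : (K : ℝ) ^ (-(1 : ℝ)) ≤ (K : ℝ) ^ (ε - 1 / 2) :=
      Real.rpow_le_rpow_of_exponent_le hKR (by linarith)
    rw [Real.rpow_neg_one] at h4
    rw [div_eq_mul_inv]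
    exact mul_le_mul_of_nonneg_left h4 (by positivity)
  have : D * (K : ℝ) ^ (ε - 1 / 2) = S * |C1| * (K : ℝ) ^ (ε - 1 / 2) +
      S ^ 2 * (|C2| * (S + 1) ^ (1 / 2 + ε)) * (K : ℝ) ^ (ε - 1 / 2) +
      2 * S ^ 2 * (K : ℝ) ^ (ε - 1 / 2) := by rw [hD]; ring
  rw [this]
  linarith

open Classical in
/-- The indicator of the exceptional pairs. -/
noncomputable def bdFun : LocFun := fun _ u v => if u = 0 ∨ u = 1728 ∨ v = 0 then 0 else 1

lemma bdFun_le_one : ∀ k u v, bdFun k u v ≤ 1 := by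
  intro k u v
  unfold bdFun
  split_ifs <;> norm_num

lemma bd_law (k : ℕ) : glaw bdFun k (Set.Ico 0 (1 / 2)) ≤ 3 / (Nat.nth Nat.Prime k : ℝ) := by
  classical
  have hp0 : (0 : ℝ) < (Nat.nth Nat.Prime k : ℝ) := by exact_mod_cast NeZero.pos _
  have h := card_not_good (p := Nat.nth Nat.Prime k)
  unfold glaw
  rw [div_le_div_iff₀ (by positivity) hp0]
  have h2 : ((Finset.univ.filter (fun w : ZMod (Nat.nth Nat.Prime k) × ZMod (Nat.nth Nat.Prime k) =>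
      bdFun k w.1 w.2 ∈ Set.Ico (0 : ℝ) (1 / 2))).card : ℝ) ≤ 3 * (Nat.nth Nat.Prime k : ℝ) := by
    refine le_trans ?_ h
    have h3 : Finset.univ.filter (fun w : ZMod (Nat.nth Nat.Prime k) ×
        ZMod (Nat.nth Nat.Prime k) => bdFun k w.1 w.2 ∈ Set.Ico (0 : ℝ) (1 / 2)) ⊆
        Finset.univ.filter (fun w => ¬ good w) := by
      intro w hw
      rw [Finset.mem_filter] at hw ⊢
      refine ⟨Finset.mem_univ _, ?_⟩
      rintro ⟨h1, h2, h3⟩
      have h4 := hw.2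
      unfold bdFun at h4
      rw [if_neg (by push Not; exact ⟨h1, h2, h3⟩)] at h4
      have := h4.2
      norm_num at this
    exact_mod_cast Finset.card_le_card h3
  have h4 := mul_le_mul_of_nonneg_right h2 hp0.le
  refine le_trans (le_trans (le_of_eq ?_) h4) (le_of_eq (by ring))
  congr

lemma qn_le_card {Q : ℕ → Prop} (S : Finset ℕ) (h : ∀ k, Q k → k ∈ S) (K : ℕ) :
    qn Q K ≤ S.card := by
  classical
  unfold qn
  apply Finset.card_le_card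
  intro k hk
  rw [Finset.mem_filter] at hk
  exact h k hk.2

/-- The number of exceptional indices. -/
lemma qn_bd (K : ℕ) (j d : ℤ) : (qn (fun k => Qj j k ∨ Qd d k) K : ℝ) ≤
    2 + |gdev bdFun 1 (fun _ => 0) (fun _ => 1 / 2) K j d| + 6 * √(K : ℝ) := by
  classical
  have h1 : gdev bdFun 1 (fun _ => 0) (fun _ => 1 / 2) K j d =
      ∑ k ∈ range K, gind bdFun k 0 (1 / 2) j d -
      ∑ k ∈ range K, glaw bdFun k (Set.Ico 0 (1 / 2)) := by
    rw [gdev_eq]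
    simp only [Fin.prod_univ_one, Fin.val_zero, Fin.isValue, add_zero]
    rfl
  have h2 : ∑ k ∈ range K, glaw bdFun k (Set.Ico 0 (1 / 2)) ≤ 6 * √(K : ℝ) := by
    have e1 : ∑ k ∈ range K, glaw bdFun k (Set.Ico 0 (1 / 2)) ≤
        3 * ∑ k ∈ range K, 1 / (Nat.nth Nat.Prime k : ℝ) := by
      rw [Finset.mul_sum]
      refine Finset.sum_le_sum (fun k _ => (bd_law k).trans (le_of_eq (by ring)))
    have e2 := sum_inv_prime K
    linarith
  have h3 : (qn (fun k => Qj j k ∨ Qd d k) K : ℝ) ≤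
      2 + ∑ k ∈ range K, gind bdFun k 0 (1 / 2) j d := by
    have e1 : qn (fun k => Qj j k ∨ Qd d k) K ≤ qn (fun k => k < 2) K +
        qn (fun k => gind bdFun k 0 (1 / 2) j d = 1) K := by
      refine (qn_mono (Q' := fun k => k < 2 ∨ gind bdFun k 0 (1 / 2) j d = 1) ?_ K).trans
        (qn_or _ _ K)
      intro k hk
      unfold Qj Qd at hk
      by_cases h : k < 2
      · exact Or.inl h
      · right
        have h5 : ((j : ℤ) : ZMod (Nat.nth Nat.Prime k)) = 0 ∨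
          ((j : ℤ) : ZMod (Nat.nth Nat.Prime k)) = 1728 ∨
          ((d : ℤ) : ZMod (Nat.nth Nat.Prime k)) = 0 := by tauto
        unfold gind bdFun
        rw [if_pos h5, if_pos]
        rw [Set.mem_Ico]; norm_num
    have e2 : qn (fun k => k < 2) K ≤ 2 := by
      refine (qn_le_card (range 2) (fun k hk => Finset.mem_range.mpr hk) K).trans ?_
      rw [Finset.card_range]
    have e3 : (qn (fun k => gind bdFun k 0 (1 / 2) j d = 1) K : ℝ) ≤
        ∑ k ∈ range K, gind bdFun k 0 (1 / 2) j d := by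
      rw [← sum_ind]
      refine Finset.sum_le_sum (fun k _ => ?_)
      split_ifs with h
      · rw [h]
      · exact gind_nonneg _ _ _ _ _ _
    have e4 : (qn (fun k => Qj j k ∨ Qd d k) K : ℝ) ≤ (qn (fun k => k < 2) K : ℝ) +
        (qn (fun k => gind bdFun k 0 (1 / 2) j d = 1) K : ℝ) := by exact_mod_cast e1
    have e5 : (qn (fun k => k < 2) K : ℝ) ≤ 2 := by exact_mod_cast e2
    linarith
  have h4 := le_abs_self (gdev bdFun 1 (fun _ => 0) (fun _ => 1 / 2) K j d)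
  linarith

/-- Elementary bounds for `K ^ (1/2+ε)`. -/
lemma powers (s K : ℕ) (hK : 1 ≤ K) (ε : ℝ) (hε : 0 < ε) :
    √(K : ℝ) ≤ (K : ℝ) ^ (1 / 2 + ε) ∧ 1 ≤ (K : ℝ) ^ (1 / 2 + ε) ∧
    √((K + s : ℕ) : ℝ) ≤ (1 + s) * (K : ℝ) ^ (1 / 2 + ε) ∧
    (K : ℝ) ^ (1 / 2 + ε) / K = (K : ℝ) ^ (ε - 1 / 2) := by
  have hKR : (1 : ℝ) ≤ K := by exact_mod_cast hK
  have hKpos : (0 : ℝ) < K := by linarith
  have hsqrt : √(K : ℝ) ≤ (K : ℝ) ^ (1 / 2 + ε) := by
    rw [Real.sqrt_eq_rpow]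
    exact Real.rpow_le_rpow_of_exponent_le hKR (by linarith)
  have hR1 : 1 ≤ (K : ℝ) ^ (1 / 2 + ε) := by
    refine le_trans ?_ hsqrt
    rw [Real.one_le_sqrt]; exact hKR
  refine ⟨hsqrt, hR1, ?_, ?_⟩
  · have e1 : ((K + s : ℕ) : ℝ) ≤ (1 + s) ^ 2 * K := by
      have hs0 : (0 : ℝ) ≤ s := Nat.cast_nonneg _
      have e2 := mul_le_mul_of_nonneg_left hKR hs0
      have e3 := mul_nonneg (sq_nonneg (s : ℝ)) hKpos.le
      push_cast
      nlinarith
    calc √((K + s : ℕ) : ℝ) ≤ √((1 + s) ^ 2 * K) := Real.sqrt_le_sqrt e1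
      _ = (1 + s) * √(K : ℝ) := by
          rw [Real.sqrt_mul (by positivity), Real.sqrt_sq (by positivity)]
      _ ≤ (1 + s) * (K : ℝ) ^ (1 / 2 + ε) := mul_le_mul_of_nonneg_left hsqrt (by positivity)
  · rw [← Real.rpow_sub_one hKpos.ne']
    congr 1; ring

end Pool.Agent.H13.TWJ
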