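import Mathlib
import Pool.Agent.H13.TWJ.Prob

/-!
# The twists of almost all curves with integral `j`-invariant: the final argument
-/

namespace Pool.Agent.H13.TWJ

open Finset MeasureTheory Pool.Agent.H11.STA

/-- The properties of a good `j`. -/
def GoodJ (s : ℕ) (ε C : ℝ) (X : ℕ) (j : ℤ) : Prop :=
  ∀ K : ℕ, 1 ≤ K → (K : ℝ) ^ C ≤ X →
    (∀ d : ℤ, foldDisc (Ejd j d) s K ≤ C * (K : ℝ) ^ (ε - 1 / 2) + s * qn (Qd d) K / K) ∧
    (qn (Qj j) (K + s) : ℝ) ≤ C * (K : ℝ) ^ (1 / 2 + ε)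

open Classical in
/-- Almost all `j` are good. -/
theorem fold_good (s : ℕ) (hs : 1 ≤ s) (ε η : ℝ) (hε : 0 < ε) (hη : 0 < η) :
    ∃ C : ℝ, 0 < C ∧ ∀ (J : ℤ) (X : ℕ),
      (((Ico J (J + X)).filter (fun j => ¬ GoodJ s ε C X j)).card : ℝ) ≤ η * X := by
  obtain ⟨C1, hC1, hdev1⟩ := gdev_all s hs ε (η / 2) hε (by positivity)
  obtain ⟨C2, hC2, hdev2⟩ := gdev_all 1 le_rfl ε (η / 2) hε (by positivity)
  obtain ⟨D, hD, hmean⟩ := mean_all s hs ε hε
  have hs0 : (0 : ℝ) ≤ s := Nat.cast_nonneg _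
  set B : ℝ := 8 + C2 + s with hB
  set A : ℝ := 2 * s * B + C1 + 6 * s * (1 + s) with hA
  have hB0 : 0 ≤ B := by positivity
  have hA0 : 0 ≤ A := by positivity
  set C : ℝ := C1 + C2 + (2 * (A + D) + s * B + s ^ 2 + B) with hC
  have hin : 0 ≤ 2 * (A + D) + s * B + (s : ℝ) ^ 2 + B := by positivity
  refine ⟨C, by positivity, fun J X => ?_⟩
  set P1 : ℤ → ℤ → Prop := fun j d => ∀ K : ℕ, 1 ≤ K → (K : ℝ) ^ C1 ≤ min (X : ℝ) X →
    ∀ α β : Fin s → ℝ, |gdev tjFun s α β K j d| ≤ C1 * (K : ℝ) ^ (1 / 2 + ε) with hP1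
  set P2 : ℤ → ℤ → Prop := fun j d => ∀ K : ℕ, 1 ≤ K → (K : ℝ) ^ C2 ≤ min (X : ℝ) X →
    ∀ α β : Fin 1 → ℝ, |gdev bdFun 1 α β K j d| ≤ C2 * (K : ℝ) ^ (1 / 2 + ε) with hP2
  have hT1 := hdev1 tjFun tjFun_le_one J 0 X X
  have hT2 := hdev2 bdFun bdFun_le_one J 0 X X
  obtain ⟨P, hP⟩ : ∃ P : ℤ → ℤ → Prop, ∀ j d, P j d ↔ (P1 j d ∧ P2 j d) :=
    ⟨_, fun _ _ => Iff.rfl⟩
  have hT : (((curveBox J 0 X X).filter (fun w => ¬ P w.1 w.2)).card : ℝ) ≤
      η * (X * X) := by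
    have h1 : (curveBox J 0 X X).filter (fun w => ¬ P w.1 w.2) ⊆
        (curveBox J 0 X X).filter (fun w => ¬ P1 w.1 w.2) ∪
        (curveBox J 0 X X).filter (fun w => ¬ P2 w.1 w.2) := by
      intro w hw
      rw [Finset.mem_filter] at hw
      rw [Finset.mem_union, Finset.mem_filter, Finset.mem_filter]
      rcases not_and_or.mp (fun h => hw.2 ((hP _ _).mpr h)) with h | h
      · exact Or.inl ⟨hw.1, h⟩
      · exact Or.inr ⟨hw.1, h⟩
    have h2 := (Finset.card_le_card h1).trans (Finset.card_union_le _ _)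
    have h3 : (((curveBox J 0 X X).filter (fun w => ¬ P w.1 w.2)).card : ℝ) ≤
        (((curveBox J 0 X X).filter (fun w => ¬ P1 w.1 w.2)).card : ℝ) +
        (((curveBox J 0 X X).filter (fun w => ¬ P2 w.1 w.2)).card : ℝ) := by exact_mod_cast h2
    linarith
  have hF := card_first J X P η hT
  set T := (Ico J (J + X)).filter (fun j => ∀ c ∈ Ico (0 : ℤ) (0 + X), ¬ P j c) with hTd
  refine le_trans ?_ hF
  have hsub : (Ico J (J + X)).filter (fun j => ¬ GoodJ s ε C X j) ⊆ T := by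
    intro j hj
    rw [Finset.mem_filter] at hj
    simp only [hTd, Finset.mem_filter]
    refine ⟨hj.1, fun d0 _ hP0 => hj.2 ?_⟩
    obtain ⟨hp1, hp2⟩ := (hP _ _).mp hP0
    intro K hK hKC
    have hKR : (1 : ℝ) ≤ K := by exact_mod_cast hK
    have hKpos : (0 : ℝ) < K := by linarith
    obtain ⟨r1, r2, r3, r4⟩ := powers s K hK ε hε
    set R : ℝ := (K : ℝ) ^ (1 / 2 + ε) with hR
    have hKC1 : (K : ℝ) ^ C1 ≤ min (X : ℝ) X := by
      rw [min_self]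
      exact (Real.rpow_le_rpow_of_exponent_le hKR (by linarith)).trans hKC
    have hKC2 : (K : ℝ) ^ C2 ≤ min (X : ℝ) X := by
      rw [min_self]
      exact (Real.rpow_le_rpow_of_exponent_le hKR (by linarith)).trans hKC
    have h1 := hp1 K hK hKC1
    have h2 := hp2 K hK hKC2 (fun _ => 0) (fun _ => 1 / 2)
    have hq : (qn (fun k => Qj j k ∨ Qd d0 k) (K + s) : ℝ) ≤ B * R := by
      have e1 := qn_bd K j d0
      have e2 : (qn (fun k => Qj j k ∨ Qd d0 k) (K + s) : ℝ) ≤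
          qn (fun k => Qj j k ∨ Qd d0 k) K + s := by
        exact_mod_cast qn_add _ K s
      have e3 : (s : ℝ) ≤ s * R := le_mul_of_one_le_right hs0 r2
      rw [hB]
      nlinarith
    have hpd := pair_disc j d0 s K hK (C1 * R) h1
    have hmd := hmean K hK
    have hpow : (0 : ℝ) < (K : ℝ) ^ (ε - 1 / 2) := Real.rpow_pos_of_pos hKpos _
    have hE : extremeDisc (Ejd j d0) s K ≤ (A + D) * (K : ℝ) ^ (ε - 1 / 2) := by
      have e1 : (2 * s * (qn (fun k => Qj j k ∨ Qd d0 k) (K + s) : ℝ) + C1 * R +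
          s * (6 * √((K + s : ℕ) : ℝ))) ≤ A * R := by
        have f1 : 2 * s * (qn (fun k => Qj j k ∨ Qd d0 k) (K + s) : ℝ) ≤ 2 * s * (B * R) :=
          mul_le_mul_of_nonneg_left hq (by positivity)
        have f2 : (s : ℝ) * (6 * √((K + s : ℕ) : ℝ)) ≤ s * (6 * ((1 + s) * R)) :=
          mul_le_mul_of_nonneg_left (mul_le_mul_of_nonneg_left r3 (by norm_num)) hs0
        rw [hA]
        linarith
      have e2 := div_le_div_of_nonneg_right e1 hKpos.le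
      rw [mul_div_assoc, r4] at e2
      have e3 : (A + D) * (K : ℝ) ^ (ε - 1 / 2) = A * (K : ℝ) ^ (ε - 1 / 2) +
        D * (K : ℝ) ^ (ε - 1 / 2) := by ring
      rw [e3]
      linarith
    have hF0 := foldDisc_le (Ejd j d0) s K hK
    have hqB : (qn (Qj j) (K + s) : ℝ) ≤ B * R := by
      refine le_trans ?_ hq
      exact_mod_cast qn_mono (fun k hk => Or.inl hk) _
    have hCB : B ≤ C := by
      have : 0 ≤ 2 * (A + D) + s * B + (s : ℝ) ^ 2 := by positivity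
      linarith
    refine ⟨fun d => ?_, hqB.trans (mul_le_mul_of_nonneg_right hCB (by linarith))⟩
    have hn := foldDisc_near (Ejd j d) (Ejd j d0) s K _ (fun α β => fold_near j d d0 s K hK α β)
    have e1 : (s : ℝ) * (qn (fun k => (Qj j k ∨ Qd d0 k) ∨ Qd d k) (K + s)) / K ≤
        (s * B + s ^ 2) * (K : ℝ) ^ (ε - 1 / 2) + s * qn (Qd d) K / K := by
      have f1 : (qn (fun k => (Qj j k ∨ Qd d0 k) ∨ Qd d k) (K + s) : ℝ) ≤
          qn (fun k => Qj j k ∨ Qd d0 k) (K + s) + qn (Qd d) (K + s) := by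
        exact_mod_cast qn_or _ _ _
      have f2 : (qn (Qd d) (K + s) : ℝ) ≤ qn (Qd d) K + s := by exact_mod_cast qn_add _ K s
      have f3 : (s : ℝ) * (qn (fun k => (Qj j k ∨ Qd d0 k) ∨ Qd d k) (K + s)) ≤
          (s * B + s ^ 2) * R + s * qn (Qd d) K := by
        have g1 : (s : ℝ) ≤ s * R := le_mul_of_one_le_right hs0 r2
        have g2 : (qn (fun k => (Qj j k ∨ Qd d0 k) ∨ Qd d k) (K + s) : ℝ) ≤
          B * R + (qn (Qd d) K + s * R) := by linarith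
        refine (mul_le_mul_of_nonneg_left g2 hs0).trans (le_of_eq (by ring))
      refine (div_le_div_of_nonneg_right f3 hKpos.le).trans (le_of_eq ?_)
      rw [add_div, mul_div_assoc, r4]
    have e2 : (2 * (A + D) + (s * B + s ^ 2)) * (K : ℝ) ^ (ε - 1 / 2) ≤
        C * (K : ℝ) ^ (ε - 1 / 2) := by
      refine mul_le_mul_of_nonneg_right ?_ hpow.le
      linarith
    have e3 : (2 * (A + D) + (s * B + s ^ 2)) * (K : ℝ) ^ (ε - 1 / 2) =
        2 * ((A + D) * (K : ℝ) ^ (ε - 1 / 2)) + (s * B + s ^ 2) * (K : ℝ) ^ (ε - 1 / 2) := by ring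
    linarith
  exact_mod_cast Finset.card_le_card hsub

lemma qn_one (K : ℕ) : qn (Qd 1) K = 0 := by
  have h := qn_le_card (Q := Qd 1) ∅ (fun k hk => by
    exfalso
    unfold Qd at hk
    rw [Int.cast_one] at hk
    exact one_ne_zero hk) K
  rw [Finset.card_empty] at h
  omega

lemma qn_div (K : ℕ) (d : ℤ) : qn (Qd d) K = divCount K d := by
  unfold qn Qd divCount
  congr

open Classical in
/-- Almost all twists of a good `j`. -/
theorem twist_good (s : ℕ) (hs : 1 ≤ s) (ε η C0 : ℝ) (hε : 0 < ε) (hη : 0 < η) (hC0 : 0 < C0) :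
    ∃ C : ℝ, 0 < C ∧ ∀ (j : ℤ) (X : ℕ), GoodJ s ε C0 X j → ∀ (D : ℤ) (Y : ℕ),
      (((Ico D (D + Y)).filter (fun d => ¬ ∀ K : ℕ, 1 ≤ K → (K : ℝ) ^ C ≤ min (X : ℝ) Y →
        extremeDisc (Ejd j d) s K ≤ C * (K : ℝ) ^ (ε - 1 / 2))).card : ℝ) ≤ η * Y := by
  obtain ⟨C1, hC1, hdev1⟩ := gdev_all s hs ε (η / 2) hε (by positivity)
  obtain ⟨C2, hC2, hdev2⟩ := gdev_all 1 le_rfl ε (η / 2) hε (by positivity)
  have hs0 : (0 : ℝ) ≤ s := Nat.cast_nonneg _
  set B : ℝ := C0 + C2 + 2 + s with hB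
  set A : ℝ := s * B + C1 + s * (C0 + 2 * (1 + s)) with hA
  have hB0 : 0 ≤ B := by positivity
  have hA0 : 0 ≤ A := by positivity
  set C : ℝ := C1 + C2 + (C0 + A) with hC
  refine ⟨C, by positivity, fun j X hj D Y => ?_⟩
  set Z : LocFun := twFun (3 * j * (1728 - j)) (2 * j * (1728 - j) ^ 2) with hZ
  set P1 : ℤ → ℤ → Prop := fun d c => ∀ K : ℕ, 1 ≤ K → (K : ℝ) ^ C1 ≤ min (Y : ℝ) Y →
    ∀ α β : Fin s → ℝ, |gdev Z s α β K d c| ≤ C1 * (K : ℝ) ^ (1 / 2 + ε) with hP1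
  set P2 : ℤ → ℤ → Prop := fun d c => ∀ K : ℕ, 1 ≤ K → (K : ℝ) ^ C2 ≤ min (Y : ℝ) Y →
    ∀ α β : Fin 1 → ℝ, |gdev dvFun 1 α β K d c| ≤ C2 * (K : ℝ) ^ (1 / 2 + ε) with hP2
  have hT1 := card_first D Y P1 (η / 2) (hdev1 Z (twFun_le_one _ _) D 0 Y Y)
  have hT2 := card_first D Y P2 (η / 2) (hdev2 dvFun dvFun_le_one D 0 Y Y)
  set T1 := (Ico D (D + Y)).filter (fun d => ∀ c ∈ Ico (0 : ℤ) (0 + Y), ¬ P1 d c) with hT1d
  set T2 := (Ico D (D + Y)).filter (fun d => ∀ c ∈ Ico (0 : ℤ) (0 + Y), ¬ P2 d c) with hT2d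
  have hsub : (Ico D (D + Y)).filter (fun d => ¬ ∀ K : ℕ, 1 ≤ K → (K : ℝ) ^ C ≤ min (X : ℝ) Y →
        extremeDisc (Ejd j d) s K ≤ C * (K : ℝ) ^ (ε - 1 / 2)) ⊆ T1 ∪ T2 := by
    intro d hd
    rw [Finset.mem_filter] at hd
    obtain ⟨hdI, hnot⟩ := hd
    rw [Finset.mem_union]
    by_contra hcon
    push Not at hcon
    obtain ⟨hn1, hn2⟩ := hcon
    apply hnot
    intro K hK hKC
    have hKR : (1 : ℝ) ≤ K := by exact_mod_cast hK
    have hKpos : (0 : ℝ) < K := by linarith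
    obtain ⟨c1, -, hc1⟩ : ∃ c ∈ Ico (0 : ℤ) (0 + Y), P1 d c := by
      by_contra hno
      push Not at hno
      apply hn1
      simp only [hT1d, Finset.mem_filter]
      exact ⟨hdI, hno⟩
    obtain ⟨c2, -, hc2⟩ : ∃ c ∈ Ico (0 : ℤ) (0 + Y), P2 d c := by
      by_contra hno
      push Not at hno
      apply hn2
      simp only [hT2d, Finset.mem_filter]
      exact ⟨hdI, hno⟩
    have hKX : (K : ℝ) ^ C0 ≤ X :=
      ((Real.rpow_le_rpow_of_exponent_le hKR (by linarith)).trans hKC).trans (min_le_left _ _)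
    have hKY := hKC.trans (min_le_right _ _)
    have hKC1 : (K : ℝ) ^ C1 ≤ min (Y : ℝ) Y := by
      rw [min_self]
      exact (Real.rpow_le_rpow_of_exponent_le hKR (by linarith)).trans hKY
    have hKC2 : (K : ℝ) ^ C2 ≤ min (Y : ℝ) Y := by
      rw [min_self]
      exact (Real.rpow_le_rpow_of_exponent_le hKR (by linarith)).trans hKY
    have h1 := hc1 K hK hKC1
    have h2 := hc2 K hK hKC2 (fun _ => 0) (fun _ => 1 / 2)
    obtain ⟨hj1, hj2⟩ := hj K hK hKX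
    obtain ⟨r1, r2, r3, r4⟩ := powers s K hK ε hε
    set R : ℝ := (K : ℝ) ^ (1 / 2 + ε) with hR
    have hq : (qn (fun k => Qj j k ∨ Qd d k) (K + s) : ℝ) ≤ B * R := by
      have e1 : (qn (fun k => Qj j k ∨ Qd d k) (K + s) : ℝ) ≤
        qn (Qj j) (K + s) + qn (Qd d) (K + s) := by exact_mod_cast qn_or _ _ _
      have e2 : (qn (Qd d) (K + s) : ℝ) ≤ qn (Qd d) K + s := by exact_mod_cast qn_add _ K s
      have e3 := divCount_le K d c2
      rw [← qn_div] at e3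
      have e4 : (s : ℝ) ≤ s * R := le_mul_of_one_le_right hs0 r2
      rw [hB]
      nlinarith
    have hq1 : (qn (fun k => Qj j k ∨ Qd 1 k) (K + s) : ℝ) ≤ C0 * R := by
      have e1 : (qn (fun k => Qj j k ∨ Qd 1 k) (K + s) : ℝ) ≤
        qn (Qj j) (K + s) + qn (Qd 1) (K + s) := by exact_mod_cast qn_or _ _ _
      rw [qn_one, Nat.cast_zero, add_zero] at e1
      linarith
    have hF : foldDisc (Ejd j 1) s K ≤ C0 * (K : ℝ) ^ (ε - 1 / 2) := by
      have e1 := hj1 1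
      rw [qn_one, Nat.cast_zero, mul_zero, zero_div, add_zero] at e1
      exact e1
    have htd := twist_disc j d 1 c1 s K hK (C1 * R) h1
    have e1 : (s * (qn (fun k => Qj j k ∨ Qd d k) (K + s) : ℝ) + C1 * R +
        s * (qn (fun k => Qj j k ∨ Qd 1 k) (K + s) + 2 * √((K + s : ℕ) : ℝ))) ≤ A * R := by
      have f1 := mul_le_mul_of_nonneg_left hq hs0
      have f2 : (s : ℝ) * (qn (fun k => Qj j k ∨ Qd 1 k) (K + s) + 2 * √((K + s : ℕ) : ℝ)) ≤
          s * (C0 * R + 2 * ((1 + s) * R)) :=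
        mul_le_mul_of_nonneg_left (add_le_add hq1 (mul_le_mul_of_nonneg_left r3 (by norm_num))) hs0
      rw [hA]
      linarith
    have e2 := div_le_div_of_nonneg_right e1 hKpos.le
    rw [mul_div_assoc, r4] at e2
    have hpow : (0 : ℝ) < (K : ℝ) ^ (ε - 1 / 2) := Real.rpow_pos_of_pos hKpos _
    have e3 : (C0 + A) * (K : ℝ) ^ (ε - 1 / 2) ≤ C * (K : ℝ) ^ (ε - 1 / 2) := by
      refine mul_le_mul_of_nonneg_right ?_ hpow.le
      linarith
    linarith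
  calc (((Ico D (D + Y)).filter (fun d => ¬ ∀ K : ℕ, 1 ≤ K → (K : ℝ) ^ C ≤ min (X : ℝ) Y →
        extremeDisc (Ejd j d) s K ≤ C * (K : ℝ) ^ (ε - 1 / 2))).card : ℝ)
      ≤ ((T1 ∪ T2).card : ℝ) := by exact_mod_cast Finset.card_le_card hsub
    _ ≤ (T1.card : ℝ) + T2.card := by exact_mod_cast Finset.card_union_le _ _
    _ ≤ η / 2 * Y + η / 2 * Y := add_le_add hT1 hT2
    _ = η * Y := by ring

end Pool.Agent.H13.TWJ
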