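import Mathlib
import Pool.Agent.H13.TWJ.Comb

/-!
# The twists of almost all curves with integral `j`-invariant, for all `s` and `ε` at once
-/

namespace Pool.Agent.H13.TWJ

open Finset MeasureTheory Pool.Agent.H11.STA

open Classical in
lemma qn_dvd (K : ℕ) (d : ℤ) : qn (Qd d) K =
    ((range K).filter (fun k => ((Nat.nth Nat.Prime k : ℕ) : ℤ) ∣ d)).card := by
  have h : ∀ k, Qd d k ↔ ((Nat.nth Nat.Prime k : ℕ) : ℤ) ∣ d := fun k =>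
    ZMod.intCast_zmod_eq_zero_iff_dvd d _
  unfold qn
  simp only [h]

open Classical in
/-- For almost all integers `j`: all twists have a small folded discrepancy, and almost all twists
have a small discrepancy. -/
theorem almost_all_j (η : ℝ) (hη : 0 < η) :
    ∃ C : ℕ → ℝ → ℝ, (∀ s ε, 0 < C s ε) ∧ ∀ (J : ℤ) (X : ℕ),
      (((Ico J (J + X)).filter (fun j : ℤ => ¬
        ((∀ s : ℕ, 1 ≤ s → ∀ ε : ℝ, 0 < ε → ∀ K : ℕ, 1 ≤ K → (K : ℝ) ^ C s ε ≤ X →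
          ∀ d : ℤ, foldDisc (Ejd j d) s K ≤ C s ε * (K : ℝ) ^ (ε - 1 / 2) +
            s * (((range K).filter (fun k => ((Nat.nth Nat.Prime k : ℕ) : ℤ) ∣ d)).card : ℝ) / K) ∧
        ∀ (D : ℤ) (Y : ℕ), (((Ico D (D + Y)).filter (fun d : ℤ => ¬
          ∀ s : ℕ, 1 ≤ s → ∀ ε : ℝ, 0 < ε → ∀ K : ℕ, 1 ≤ K →
            (K : ℝ) ^ C s ε ≤ min (X : ℝ) Y →
            extremeDisc (Ejd j d) s K ≤ C s ε * (K : ℝ) ^ (ε - 1 / 2))).card : ℝ) ≤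
          η * Y))).card : ℝ) ≤ η * X := by
  have hη1 : ∀ m : ℕ, 0 < η * (1 / 2) ^ (m + 1) := fun m => by positivity
  have hf : ∀ m : ℕ, ∃ C : ℝ, 0 < C ∧ ∀ (J : ℤ) (X : ℕ),
      (((Ico J (J + X)).filter (fun j => ¬ GoodJ (m.unpair.1 + 1) (1 / ((m.unpair.2 : ℝ) + 1))
        C X j)).card : ℝ) ≤ (η * (1 / 2) ^ (m + 1)) * X := fun m =>
    fold_good (m.unpair.1 + 1) (by omega) (1 / ((m.unpair.2 : ℝ) + 1)) (η * (1 / 2) ^ (m + 1))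
      (by positivity) (hη1 m)
  choose C0 hC0 hgood using hf
  have ht : ∀ m : ℕ, ∃ C : ℝ, 0 < C ∧ ∀ (j : ℤ) (X : ℕ), GoodJ (m.unpair.1 + 1)
      (1 / ((m.unpair.2 : ℝ) + 1)) (C0 m) X j → ∀ (D : ℤ) (Y : ℕ),
      (((Ico D (D + Y)).filter (fun d => ¬ ∀ K : ℕ, 1 ≤ K → (K : ℝ) ^ C ≤ min (X : ℝ) Y →
        extremeDisc (Ejd j d) (m.unpair.1 + 1) K ≤
          C * (K : ℝ) ^ (1 / ((m.unpair.2 : ℝ) + 1) - 1 / 2))).card : ℝ) ≤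
        (η * (1 / 2) ^ (m + 1)) * Y := fun m =>
    twist_good (m.unpair.1 + 1) (by omega) (1 / ((m.unpair.2 : ℝ) + 1)) (η * (1 / 2) ^ (m + 1))
      (C0 m) (by positivity) (hη1 m) (hC0 m)
  choose C1 hC1 htw using ht
  have hnum : ∀ (s : ℕ) (ε : ℝ), 1 ≤ s → 0 < ε →
      (Nat.unpair (Nat.pair (s - 1) ⌈1 / ε⌉₊)).1 + 1 = s ∧
      1 / (((Nat.unpair (Nat.pair (s - 1) ⌈1 / ε⌉₊)).2 : ℝ) + 1) ≤ ε := by
    intro s ε hs hε
    rw [Nat.unpair_pair]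
    refine ⟨Nat.sub_add_cancel hs, ?_⟩
    have h1 : 1 / ε ≤ ⌈1 / ε⌉₊ := Nat.le_ceil _
    rw [div_le_iff₀ (by positivity)]
    rw [div_le_iff₀ hε] at h1
    nlinarith
  refine ⟨fun s ε => C0 (Nat.pair (s - 1) ⌈1 / ε⌉₊) + C1 (Nat.pair (s - 1) ⌈1 / ε⌉₊),
    fun s ε => add_pos (hC0 _) (hC1 _), fun J X => ?_⟩
  have hub := Pool.Agent.H11.DEU.union_bound (Ico J (J + X)) (fun m j =>
    GoodJ (m.unpair.1 + 1) (1 / ((m.unpair.2 : ℝ) + 1)) (C0 m) X j) η X hη.le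
    (Nat.cast_nonneg _) (fun m => hgood m J X)
  refine le_trans ?_ hub
  have hsub : ∀ j : ℤ, (∀ m : ℕ, GoodJ (m.unpair.1 + 1) (1 / ((m.unpair.2 : ℝ) + 1)) (C0 m) X j) →
      ((∀ s : ℕ, 1 ≤ s → ∀ ε : ℝ, 0 < ε → ∀ K : ℕ, 1 ≤ K →
          (K : ℝ) ^ (C0 (Nat.pair (s - 1) ⌈1 / ε⌉₊) + C1 (Nat.pair (s - 1) ⌈1 / ε⌉₊)) ≤ X →
          ∀ d : ℤ, foldDisc (Ejd j d) s K ≤
            (C0 (Nat.pair (s - 1) ⌈1 / ε⌉₊) + C1 (Nat.pair (s - 1) ⌈1 / ε⌉₊)) *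
              (K : ℝ) ^ (ε - 1 / 2) +
            s * (((range K).filter (fun k => ((Nat.nth Nat.Prime k : ℕ) : ℤ) ∣ d)).card : ℝ) / K) ∧
        ∀ (D : ℤ) (Y : ℕ), (((Ico D (D + Y)).filter (fun d : ℤ => ¬
          ∀ s : ℕ, 1 ≤ s → ∀ ε : ℝ, 0 < ε → ∀ K : ℕ, 1 ≤ K →
            (K : ℝ) ^ (C0 (Nat.pair (s - 1) ⌈1 / ε⌉₊) + C1 (Nat.pair (s - 1) ⌈1 / ε⌉₊)) ≤
              min (X : ℝ) Y →
            extremeDisc (Ejd j d) s K ≤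
              (C0 (Nat.pair (s - 1) ⌈1 / ε⌉₊) + C1 (Nat.pair (s - 1) ⌈1 / ε⌉₊)) *
              (K : ℝ) ^ (ε - 1 / 2))).card : ℝ) ≤ η * Y) := by
    intro j hj
    constructor
    · intro s hs ε hε K hK hKX d
      obtain ⟨n1, n2⟩ := hnum s ε hs hε
      set m := Nat.pair (s - 1) ⌈1 / ε⌉₊ with hm
      have hKR : (1 : ℝ) ≤ K := by exact_mod_cast hK
      have h1 := (hj m K hK ((Real.rpow_le_rpow_of_exponent_le hKR
        (by linarith [hC1 m])).trans hKX)).1 d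
      rw [n1, qn_dvd] at h1
      refine h1.trans (add_le_add ?_ le_rfl)
      refine mul_le_mul (by linarith [hC1 m]) ?_ (by positivity) (by linarith [hC0 m, hC1 m])
      exact Real.rpow_le_rpow_of_exponent_le hKR (by linarith)
    · intro D Y
      have hub2 := Pool.Agent.H11.DEU.union_bound (Ico D (D + Y)) (fun m d =>
        ∀ K : ℕ, 1 ≤ K → (K : ℝ) ^ C1 m ≤ min (X : ℝ) Y →
          extremeDisc (Ejd j d) (m.unpair.1 + 1) K ≤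
          C1 m * (K : ℝ) ^ (1 / ((m.unpair.2 : ℝ) + 1) - 1 / 2)) η Y hη.le
        (Nat.cast_nonneg _) (fun m => htw m j X (hj m) D Y)
      refine le_trans ?_ hub2
      have hs2 : (Ico D (D + Y)).filter (fun d : ℤ => ¬
          ∀ s : ℕ, 1 ≤ s → ∀ ε : ℝ, 0 < ε → ∀ K : ℕ, 1 ≤ K →
            (K : ℝ) ^ (C0 (Nat.pair (s - 1) ⌈1 / ε⌉₊) + C1 (Nat.pair (s - 1) ⌈1 / ε⌉₊)) ≤
              min (X : ℝ) Y →
            extremeDisc (Ejd j d) s K ≤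
              (C0 (Nat.pair (s - 1) ⌈1 / ε⌉₊) + C1 (Nat.pair (s - 1) ⌈1 / ε⌉₊)) *
              (K : ℝ) ^ (ε - 1 / 2)) ⊆
          (Ico D (D + Y)).filter (fun d : ℤ => ¬ ∀ m : ℕ, ∀ K : ℕ, 1 ≤ K →
            (K : ℝ) ^ C1 m ≤ min (X : ℝ) Y → extremeDisc (Ejd j d) (m.unpair.1 + 1) K ≤
            C1 m * (K : ℝ) ^ (1 / ((m.unpair.2 : ℝ) + 1) - 1 / 2)) := by
        intro d hd
        rw [Finset.mem_filter] at hd ⊢
        refine ⟨hd.1, fun hall => hd.2 (fun s hs ε hε K hK hKC => ?_)⟩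
        obtain ⟨n1, n2⟩ := hnum s ε hs hε
        set m := Nat.pair (s - 1) ⌈1 / ε⌉₊ with hm
        have hKR : (1 : ℝ) ≤ K := by exact_mod_cast hK
        have h1 := hall m K hK ((Real.rpow_le_rpow_of_exponent_le hKR
          (by linarith [hC0 m])).trans hKC)
        rw [n1] at h1
        refine h1.trans ?_
        refine mul_le_mul (by linarith [hC0 m]) ?_ (by positivity) (by linarith [hC0 m, hC1 m])
        exact Real.rpow_le_rpow_of_exponent_le hKR (by linarith)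
      exact_mod_cast Finset.card_le_card hs2
  have hfin : (Ico J (J + X)).filter (fun j : ℤ => ¬
      ((∀ s : ℕ, 1 ≤ s → ∀ ε : ℝ, 0 < ε → ∀ K : ℕ, 1 ≤ K →
          (K : ℝ) ^ (C0 (Nat.pair (s - 1) ⌈1 / ε⌉₊) + C1 (Nat.pair (s - 1) ⌈1 / ε⌉₊)) ≤ X →
          ∀ d : ℤ, foldDisc (Ejd j d) s K ≤
            (C0 (Nat.pair (s - 1) ⌈1 / ε⌉₊) + C1 (Nat.pair (s - 1) ⌈1 / ε⌉₊)) *
              (K : ℝ) ^ (ε - 1 / 2) +
            s * (((range K).filter (fun k => ((Nat.nth Nat.Prime k : ℕ) : ℤ) ∣ d)).card : ℝ) / K) ∧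
        ∀ (D : ℤ) (Y : ℕ), (((Ico D (D + Y)).filter (fun d : ℤ => ¬
          ∀ s : ℕ, 1 ≤ s → ∀ ε : ℝ, 0 < ε → ∀ K : ℕ, 1 ≤ K →
            (K : ℝ) ^ (C0 (Nat.pair (s - 1) ⌈1 / ε⌉₊) + C1 (Nat.pair (s - 1) ⌈1 / ε⌉₊)) ≤
              min (X : ℝ) Y →
            extremeDisc (Ejd j d) s K ≤
              (C0 (Nat.pair (s - 1) ⌈1 / ε⌉₊) + C1 (Nat.pair (s - 1) ⌈1 / ε⌉₊)) *
              (K : ℝ) ^ (ε - 1 / 2))).card : ℝ) ≤ η * Y)) ⊆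
      (Ico J (J + X)).filter (fun j : ℤ => ¬ ∀ m : ℕ, GoodJ (m.unpair.1 + 1)
        (1 / ((m.unpair.2 : ℝ) + 1)) (C0 m) X j) := by
    intro j hj
    rw [Finset.mem_filter] at hj ⊢
    exact ⟨hj.1, fun hall => hj.2 (hsub j hall)⟩
  exact_mod_cast Finset.card_le_card hfin

end Pool.Agent.H13.TWJ
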